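import Pool.Agent.Q187.EX.Main

/-!
# The vanishing of `Ext^n` over a number field and over the rational numbers

`A` is the category of mixed potentially semistable `ℓ`-adic representations over `ℚ`, `B` the one
over a number field, with restriction and induction. For each `n`, `Ext^n` vanishes identically for
`B` if and only if it does for `A`.
-/

set_option autoImplicit false

universe w v u

open CategoryTheory Abelian

namespace Pool.Agent.Results.MP_5968e7_ag.OverTheRationals

open Pool.Agent.Q187.EX

theorem result (A : Type u) [Category.{v} A] [Abelian A] [HasExt.{w} A] (B : Type u)
    [Category.{v} B] [Abelian B] [HasExt.{w} B] (D : ResInd A B) (n : ℕ) :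
    Vanish.{w} B n ↔ Vanish.{w} A n :=
  (vanish_iff D n).symm

end Pool.Agent.Results.MP_5968e7_ag.OverTheRationals
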