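import Pool.Agent.Q187.EX.Gen

/-!
# The cohomological dimension is determined by the groups `Ext^n(1, S)`, `S` simple

`A` is the category of mixed potentially semistable `ℓ`-adic representations over a number field.
For each `n`, all `Ext^m(V, W)` with `m ≥ n` vanish if and only if `Ext^n(1, S) = 0` for all simple
objects `S`.
-/

set_option autoImplicit false

universe w v u

open CategoryTheory Abelian MonoidalCategory

namespace Pool.Agent.Results.MP_5968e7_ag.SimpleObjectsSuffice

open Pool.Agent.Q187.EX

theorem result (A : Type u) [Category.{v} A] [Abelian A] [HasExt.{w} A] [MonoidalCategory A]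
    [MonoidalPreadditive A] [RigidCategory A] (hf : ∀ W : A, FinLen W) (n : ℕ) :
    (∀ m, n ≤ m → Vanish.{w} A m) ↔ ∀ S : A, Simple S → ∀ x : Ext.{w} (𝟙_ A) S n, x = 0 :=
  dim_iff hf n

end Pool.Agent.Results.MP_5968e7_ag.SimpleObjectsSuffice
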